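import Mathlib

set_option autoImplicit false
open Finset Filter Topology

namespace Pool.Agent.H.MP_65c29d_pr

abbrev V := Σ n : ℕ, Fin (n + 1)

def G : SimpleGraph V where
  Adj u v := u.1 + 1 = v.1 ∨ v.1 + 1 = u.1
  symm := ⟨fun _ _ h => h.symm⟩
  loopless := ⟨fun _ h => by omega⟩

def lev (N : ℕ) : Finset V := (range N).sigma fun _ => univ

lemma mem_lev {N : ℕ} {v : V} : v ∈ lev N ↔ v.1 < N := by simp [lev]

lemma conn : G.Connected := by
  have h : ∀ n, ∀ v : V, v.1 = n → G.Reachable ⟨0, 0⟩ v := by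
    intro n
    induction n with
    | zero => rintro ⟨_, i⟩ rfl; rw [Subsingleton.elim (α := Fin 1) i 0]
    | succ n ih => intro v hv; exact (ih ⟨n, 0⟩ rfl).trans (SimpleGraph.Adj.reachable (Or.inl hv.symm))
  exact ⟨fun u v => (h _ u rfl).symm.trans (h _ v rfl)⟩

lemma locfin (v : V) : (G.neighborSet v).Finite :=
  (lev (v.1 + 2)).finite_toSet.subset fun u hu => by
    have : v.1 + 1 = u.1 ∨ u.1 + 1 = v.1 := hu
    simp only [mem_coe, mem_lev]; omega

lemma trans (f : V → ℝ) (hf : (Function.support f).Finite) (h0 : f ⟨0, 0⟩ = 1) :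
    1 ≤ ∑' p : {p : V × V // G.Adj p.1 p.2}, (f p.1.1 - f p.1.2) ^ 2 := by
  obtain ⟨N, hN⟩ : ∃ N, ∀ v : V, N ≤ v.1 → f v = 0 := by
    obtain ⟨N, hN⟩ := (hf.image fun v => v.1).bddAbove
    refine ⟨N + 1, fun v hv => by_contra fun h => ?_⟩
    have := hN ⟨v, h, rfl⟩; simp only at this; omega
  have hs : Summable fun p : {p : V × V // G.Adj p.1 p.2} => (f p.1.1 - f p.1.2) ^ 2 := by
    refine summable_of_hasFiniteSupport
      (((lev (N + 1) ×ˢ lev (N + 1)).finite_toSet.preimage Subtype.val_injective.injOn).subset ?_)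
    rintro ⟨⟨u, v⟩, h⟩ hp
    have h' : u.1 + 1 = v.1 ∨ v.1 + 1 = u.1 := h
    simp only [Set.mem_preimage, mem_coe, mem_product, mem_lev]
    by_contra hc
    exact hp (by simp only; rw [hN u (by omega), hN v (by omega)]; simp)
  set a : ℕ → ℝ := fun n => (∑ i : Fin (n + 1), f ⟨n, i⟩) / (n + 1) with ha
  set E : ℕ → ℝ := fun n => ∑ i : Fin (n + 1), ∑ j : Fin (n + 2), (f ⟨n, i⟩ - f ⟨n + 1, j⟩) ^ 2 with hE
  have h1 : ∀ n, a n - a (n + 1) ≤ (E n + (1 / (n + 1) - 1 / (n + 1 + 1))) / 2 := fun n => by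
    have e1 : a n - a (n + 1) = ∑ i : Fin (n + 1), ∑ j : Fin (n + 2),
        (f ⟨n, i⟩ - f ⟨n + 1, j⟩) / ((n + 1) * (n + 2)) := by
      simp only [ha, ← sum_div, sum_sub_distrib, sum_const, card_univ, Fintype.card_fin,
        nsmul_eq_mul, ← mul_sum]
      push_cast; field_simp; ring
    have e2 : (1 / (n + 1) - 1 / (n + 1 + 1) : ℝ) = ∑ _i : Fin (n + 1), ∑ _j : Fin (n + 2),
        (1 / (((n:ℝ) + 1) * (n + 2))) ^ 2 := by
      simp only [sum_const, card_univ, Fintype.card_fin, nsmul_eq_mul]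
      push_cast; field_simp; ring
    rw [e1, e2, hE, ← sum_add_distrib, sum_div]
    refine sum_le_sum fun i _ => ?_
    rw [← sum_add_distrib, sum_div]
    refine sum_le_sum fun j _ => ?_
    rw [div_eq_mul_one_div]
    nlinarith [sq_nonneg (f ⟨n, i⟩ - f ⟨n + 1, j⟩ - 1 / (((n:ℝ) + 1) * (n + 2)))]
  have h2 : ∀ M : ℕ, a 0 - a M ≤ (∑ n ∈ range M, E n + (1 - 1 / (M + 1))) / 2 := fun M => by
    induction M with
    | zero => simp
    | succ M ih => rw [sum_range_succ]; have := h1 M; push_cast; linarith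
  have h3 := h2 N
  have a0 : a 0 = 1 := by simp [ha, h0]
  have aN : a N = 0 := by simp [ha, hN]
  have h4 : (0:ℝ) ≤ 1 / (N + 1) := by positivity
  let e : (Σ n : ℕ, Fin (n + 1) × Fin (n + 2)) ↪ {p : V × V // G.Adj p.1 p.2} :=
    ⟨fun q => ⟨(⟨q.1, q.2.1⟩, ⟨q.1 + 1, q.2.2⟩), Or.inl rfl⟩, by
      rintro ⟨n, i, j⟩ ⟨m, k, l⟩ h
      simp only [Subtype.mk.injEq, Prod.mk.injEq, Sigma.mk.injEq] at h
      obtain ⟨⟨rfl, h1⟩, -, h2⟩ := h
      rw [eq_of_heq h1, eq_of_heq h2]⟩
  have h5 := hs.sum_le_tsum (((range N).sigma fun _ => univ).map e) (fun _ _ => sq_nonneg _)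
  rw [sum_map, sum_sigma] at h5
  simp only [Fintype.sum_prod_type] at h5
  change ∑ n ∈ range N, E n ≤ _ at h5
  linarith

lemma kiss {ι : Type} (x : ι → EuclideanSpace ℝ (Fin 3)) (r : ι → ℝ) (hr : ∀ v, 0 < r v)
    (hd : ∀ u v, u ≠ v → r u + r v ≤ dist (x u) (x v)) (u : ι) (T : Finset ι)
    (hT : ∀ v ∈ T, r u ≤ r v ∧ dist (x u) (x v) = r u + r v) : T.card ≤ 125 := by
  classical
  set z : ι → EuclideanSpace ℝ (Fin 3) := fun v => (2 * r u / (r u + r v)) • (x v - x u) with hz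
  have hu := hr u
  have h1 : ∀ v ∈ T, ‖x v - x u - z v‖ = r v - r u := fun v hv => by
    have hv0 := hr v
    have : x v - x u - z v = ((r v - r u) / (r u + r v)) • (x v - x u) := by
      rw [show (r v - r u) / (r u + r v) = 1 - 2 * r u / (r u + r v) by field_simp; ring, sub_smul,
        one_smul]
    rw [this, norm_smul, ← dist_eq_norm, dist_comm, (hT v hv).2, Real.norm_of_nonneg
      (div_nonneg (by linarith [(hT v hv).1]) (by positivity))]
    field_simp
  have h2 : ∀ v ∈ T, ∀ w ∈ T, v ≠ w → 1 ≤ ‖(r u)⁻¹ • z v - (r u)⁻¹ • z w‖ := fun v hv w hw hne => by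
    have a := hd v w hne
    rw [dist_eq_norm, show x v - x w = (x v - x u - z v) - (x w - x u - z w) + (z v - z w) by abel] at a
    have b := (norm_add_le _ _).trans (add_le_add_left (norm_sub_le (x v - x u - z v)
      (x w - x u - z w)) ‖z v - z w‖)
    rw [h1 v hv, h1 w hw] at b
    rw [← smul_sub, norm_smul, Real.norm_of_nonneg (by positivity), inv_mul_eq_div, le_div_iff₀ hu]
    linarith
  have h3 := Besicovitch.card_le_of_separated (T.image fun v => (r u)⁻¹ • z v) (by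
    simp only [mem_image, forall_exists_index, and_imp, forall_apply_eq_imp_iff₂]
    intro v hv
    have hv0 := hr v
    rw [norm_smul, norm_smul, ← dist_eq_norm, dist_comm, (hT v hv).2,
      Real.norm_of_nonneg (by positivity), Real.norm_of_nonneg (by positivity)]
    apply le_of_eq; field_simp) (by
    simp only [mem_image, forall_exists_index, and_imp, forall_apply_eq_imp_iff₂]
    intro v hv w hw hne
    exact h2 v hv w hw fun h => hne (by rw [h]))
  rw [card_image_of_injOn fun v hv w hw h => by_contra fun hne => by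
    have := h2 v hv w hw hne
    rw [h, sub_self, norm_zero] at this; linarith] at h3
  simpa using h3

noncomputable def Hm (n : ℕ) : ℝ := ∑ i ∈ range n, 1 / ((i:ℝ) + 1)

lemma Hm_mono {a b : ℕ} (h : a ≤ b) : Hm a ≤ Hm b :=
  sum_le_sum_of_subset_of_nonneg (range_mono h) fun _ _ _ => by positivity

lemma step (N n : ℕ) : (max (Hm N - Hm n) 0 - max (Hm N - Hm (n + 1)) 0) ^ 2 ≤
    if n < N then (1 / ((n:ℝ) + 1)) ^ 2 else 0 := by
  split_ifs with h
  · rw [max_eq_left (by linarith [Hm_mono h.le]), max_eq_left (by linarith [Hm_mono (Nat.succ_le_of_lt h)])]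
    rw [Hm, Hm, Hm, sum_range_succ]; apply le_of_eq; ring
  · rw [max_eq_right (by linarith [Hm_mono (not_lt.1 h)]),
      max_eq_right (by linarith [Hm_mono ((not_lt.1 h).trans n.le_succ)])]; simp

lemma recur (H : G.Subgraph) (x : H.verts → EuclideanSpace ℝ (Fin 3)) (r : H.verts → ℝ)
    (hr : ∀ v, 0 < r v) (hd : ∀ u v, u ≠ v → r u + r v ≤ dist (x u) (x v))
    (ha : ∀ u v, u ≠ v → (H.coe.Adj u v ↔ dist (x u) (x v) = r u + r v)) (N : ℕ) :
    ∑' p : {p : H.verts × H.verts // H.coe.Adj p.1 p.2},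
      (max (Hm N - Hm p.1.1.1.1) 0 - max (Hm N - Hm p.1.2.1.1) 0) ^ 2 ≤ 1000 * Hm (N + 1) := by
  classical
  set g : V → ℝ := fun v => if v.1 < N + 1 then (2 / ((v.1:ℝ) + 1)) ^ 2 else 0 with hg
  have g0 : ∀ v, 0 ≤ g v := fun v => by simp only [hg]; split_ifs <;> positivity
  have hb : ∀ u v : V, G.Adj u v → (max (Hm N - Hm u.1) 0 - max (Hm N - Hm v.1) 0) ^ 2 ≤ g u := by
    intro u v h
    rcases h with h | h
    · rw [← h]; refine (step N u.1).trans ?_
      simp only [hg]; split_ifs with h1 h2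
      · gcongr; norm_num
      · omega
      · positivity
      · rfl
    · rw [← h, ← neg_sub, neg_sq]; refine (step N v.1).trans ?_
      simp only [hg, ← h]; split_ifs with h1 h2
      · rw [div_pow, div_pow, div_le_div_iff₀ (by positivity) (by positivity)]
        push_cast; nlinarith [(Nat.cast_nonneg v.1 : (0:ℝ) ≤ _)]
      · omega
      · positivity
      · rfl
  refine Real.tsum_le_of_sum_le (fun _ => sq_nonneg _) fun s => ?_
  set m : {p : H.verts × H.verts // H.coe.Adj p.1 p.2} → V :=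
    fun p => if r p.1.1 ≤ r p.1.2 then p.1.1 else p.1.2 with hm
  have h1 : ∀ p ∈ s, (max (Hm N - Hm p.1.1.1.1) 0 - max (Hm N - Hm p.1.2.1.1) 0) ^ 2 ≤ g (m p) := by
    intro p _
    have := H.adj_sub p.2
    simp only [hm]; split_ifs
    · exact hb _ _ this
    · rw [← neg_sub, neg_sq]; exact hb _ _ this.symm
  have h2 : ∀ u ∈ s.image m, (s.filter fun p => m p = u).card ≤ 250 := by
    intro u hu
    obtain ⟨q, -, hq⟩ := mem_image.1 hu
    have hu : u ∈ H.verts := by rw [← hq]; simp only [hm]; split_ifs; exacts [q.1.1.2, q.1.2.2]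
    set T := (s.image fun p => p.1.1) ∪ (s.image fun p => p.1.2)
    set T' := T.filter fun v => r ⟨u, hu⟩ ≤ r v ∧ dist (x ⟨u, hu⟩) (x v) = r ⟨u, hu⟩ + r v
    have k := kiss x r hr hd ⟨u, hu⟩ T' fun v hv => (mem_filter.1 hv).2
    have : (s.filter fun p => m p = u).card ≤
        (T'.image (fun v => ((⟨u, hu⟩ : H.verts), v)) ∪ T'.image (fun v => (v, (⟨u, hu⟩ : H.verts)))).card := by
      refine card_le_card_of_injOn Subtype.val (fun p hp => ?_) Subtype.val_injective.injOn
      obtain ⟨hp1, hp2⟩ := mem_filter.1 hp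
      clear hp
      have e := (ha _ _ p.2.ne).1 p.2
      simp only [hm] at hp2
      simp only [coe_union, coe_image, Set.mem_union, Set.mem_image, mem_coe]
      split_ifs at hp2 with h
      · obtain rfl := hp2
        exact Or.inl ⟨p.1.2, mem_filter.2 ⟨mem_union_right _ (mem_image_of_mem _ hp1), h, e⟩, rfl⟩
      · obtain rfl := hp2
        exact Or.inr ⟨p.1.1, mem_filter.2 ⟨mem_union_left _ (mem_image_of_mem _ hp1),
          (not_le.1 h).le, by rw [dist_comm, e, add_comm]⟩, rfl⟩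
    exact this.trans ((card_union_le _ _).trans
      (add_le_add (card_image_le.trans k) (card_image_le.trans k)))
  have h3 : ∑ u ∈ s.image m, g u ≤ 4 * Hm (N + 1) := by
    calc _ ≤ ∑ u ∈ s.image m ∪ lev (N + 1), g u :=
          sum_le_sum_of_subset_of_nonneg subset_union_left fun _ _ _ => g0 _
      _ = ∑ u ∈ lev (N + 1), g u := (sum_subset subset_union_right fun u _ hu => by
          simp only [hg]; rw [if_neg (mem_lev.not.1 hu)]).symm
      _ = _ := by
        rw [lev, sum_sigma, Hm, mul_sum]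
        refine sum_congr rfl fun n hn => ?_
        simp only [hg, if_pos (mem_range.1 hn), sum_const, card_univ, Fintype.card_fin, nsmul_eq_mul]
        push_cast; field_simp; ring
  calc _ ≤ ∑ p ∈ s, g (m p) := sum_le_sum h1
    _ = ∑ u ∈ s.image m, (s.filter fun p => m p = u).card • g u := sum_comp g m
    _ ≤ ∑ u ∈ s.image m, 250 * g u := sum_le_sum fun u hu => by
        have := g0 u; rw [nsmul_eq_mul]; gcongr; exacts [by exact_mod_cast h2 u hu]
    _ ≤ _ := by rw [← mul_sum]; linarith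

lemma fin (k : ℕ) (c : ℝ) (hc : 0 < c) :
    ∃ N, 0 < Hm N - Hm k ∧ 1000 * Hm (N + 1) < c * (Hm N - Hm k) ^ 2 := by
  have h : Tendsto Hm atTop atTop := Real.tendsto_sum_range_one_div_nat_succ_atTop
  obtain ⟨N, h1, h2⟩ := ((h.eventually_ge_atTop (2 * Hm k + 1)).and
    (h.eventually_gt_atTop (Hm k + 2000 / c))).exists
  have h0 : 0 ≤ Hm k := Hm_mono (Nat.zero_le k) |>.trans' (by simp [Hm])
  have h3 : Hm (N + 1) ≤ Hm N + 1 := by
    rw [Hm, sum_range_succ]; unfold Hm; gcongr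
    rw [div_le_one (by positivity)]; linarith [(Nat.cast_nonneg N : (0:ℝ) ≤ _)]
  have h4 : 2000 < c * (Hm N - Hm k) := by
    rw [← div_lt_iff₀' hc]; linarith
  refine ⟨N, by linarith, ?_⟩
  nlinarith

end Pool.Agent.H.MP_65c29d_pr
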